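import Pool.Agent.W982.TA.Stm

/-!
# Project TA: lattice points of a triangle of doubled area 4
-/

set_option autoImplicit false

namespace Pool.Agent.W982.TA

theorem g16 : TaskG16 := by
  rintro ⟨a1, a2⟩ ⟨b1, b2⟩ ⟨c1, c2⟩ ⟨p1, p2⟩ ⟨s1, s2⟩ ⟨t1, t2⟩ h1 h2 h3 hdt ⟨r1, r2⟩ hr
  simp only [Prod.mk_add_mk, Prod.mk.injEq] at h1 h2 h3
  obtain ⟨hb, hc, ha⟩ := hr
  simp only [dt] at hdt hb hc ha
  obtain ⟨u1, rfl⟩ : ∃ u1, t1 = a1 + u1 := ⟨t1 - a1, by ring⟩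
  obtain ⟨u2, rfl⟩ : ∃ u2, t2 = a2 + u2 := ⟨t2 - a2, by ring⟩
  obtain ⟨w1, rfl⟩ : ∃ w1, s1 = a1 + w1 := ⟨s1 - a1, by ring⟩
  obtain ⟨w2, rfl⟩ : ∃ w2, s2 = a2 + w2 := ⟨s2 - a2, by ring⟩
  obtain ⟨z1, rfl⟩ : ∃ z1, r1 = a1 + z1 := ⟨r1 - a1, by ring⟩
  obtain ⟨z2, rfl⟩ : ∃ z2, r2 = a2 + z2 := ⟨r2 - a2, by ring⟩
  obtain rfl : b1 = a1 + 2 * u1 := by omega
  obtain rfl : b2 = a2 + 2 * u2 := by omega
  obtain rfl : c1 = a1 + 2 * w1 := by omega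
  obtain rfl : c2 = a2 + 2 * w2 := by omega
  obtain rfl : p1 = a1 + u1 + w1 := by omega
  obtain rfl : p2 = a2 + u2 + w2 := by omega
  have hd : u1 * w2 - u2 * w1 = 1 := by linarith
  obtain ⟨x, hx⟩ : ∃ x, x = z1 * w2 - z2 * w1 := ⟨_, rfl⟩
  obtain ⟨y, hy⟩ : ∃ y, y = u1 * z2 - u2 * z1 := ⟨_, rfl⟩
  have e1 : z1 = x * u1 + y * w1 := by rw [hx, hy]; linear_combination (-z1) * hd
  have e2 : z2 = x * u2 + y * w2 := by rw [hx, hy]; linear_combination (-z2) * hd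
  have hx0 : 0 ≤ x := by rw [hx]; linarith
  have hy0 : 0 ≤ y := by rw [hy]; linarith
  have hxy : x + y ≤ 2 := by rw [hx, hy]; linarith
  clear hx hy ha hb hc
  have hcase : (x = 0 ∧ y = 0) ∨ (x = 2 ∧ y = 0) ∨ (x = 0 ∧ y = 2) ∨ (x = 1 ∧ y = 1) ∨
      (x = 0 ∧ y = 1) ∨ (x = 1 ∧ y = 0) := by omega
  simp only [Prod.mk.injEq]
  rcases hcase with ⟨rfl, rfl⟩ | ⟨rfl, rfl⟩ | ⟨rfl, rfl⟩ | ⟨rfl, rfl⟩ | ⟨rfl, rfl⟩ | ⟨rfl, rfl⟩
  · left; constructor <;> linarith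
  · right; left; constructor <;> linarith
  · right; right; left; constructor <;> linarith
  · right; right; right; left; constructor <;> linarith
  · right; right; right; right; left; constructor <;> linarith
  · right; right; right; right; right; constructor <;> linarith

end Pool.Agent.W982.TA
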